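import Pool.Agent.LCK.Stmts

set_option autoImplicit false

namespace Pool.Agent.LCK.H25

open Metric Set

theorem bas : BASStmt := by
  intro l
  refine ⟨?_, ?_⟩
  · have h : Conf l = Set.univ := by
      refine Set.eq_univ_of_forall fun v => ⟨fun k => k.elim0, fun i => i.elim0⟩
    rw [h]
    exact isPreconnected_univ
  · intro e he
    have hrank : 1 < Module.rank ℝ E3 := by
      rw [← Module.finrank_eq_rank]
      simp
    have hs : IsPreconnected (sphere (0 : E3) e) := isPreconnected_sphere hrank 0 e
    have hp : IsPreconnected ((Set.univ : Set E3) ×ˢ sphere (0 : E3) e) :=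
      isPreconnected_univ.prod hs
    have hc : Continuous (fun q : E3 × E3 => (![q.1, q.1 + q.2] : Fin 2 → E3)) := by
      refine continuous_pi fun i => ?_
      fin_cases i
      · exact continuous_fst
      · exact continuous_fst.add continuous_snd
    have himg := hp.image _ hc.continuousOn
    have heq : Conf (ap l e) =
        (fun q : E3 × E3 => (![q.1, q.1 + q.2] : Fin 2 → E3)) ''
          ((Set.univ : Set E3) ×ˢ sphere (0 : E3) e) := by
      ext v
      constructor
      · rintro ⟨hv, -⟩
        have h0 := hv 0
        have hl : ap l e 0 = e := by
          simp [ap, Fin.snoc]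
        rw [hl] at h0
        refine ⟨(v 0, v 1 - v 0), ⟨Set.mem_univ _, ?_⟩, ?_⟩
        · rw [mem_sphere_iff_norm, sub_zero, ← dist_eq_norm, dist_comm]
          exact h0
        · funext i
          fin_cases i
          · rfl
          · show v 0 + (v 1 - v 0) = v 1
            abel
      · rintro ⟨⟨x, u⟩, ⟨-, hu⟩, rfl⟩
        refine ⟨?_, ?_⟩
        · intro k
          have hk : k = 0 := @Subsingleton.elim (Fin 1) _ _ _
          subst hk
          have hl : ap l e 0 = e := by
            simp [ap, Fin.snoc]
          rw [hl]
          show dist x (x + u) = e
          rw [mem_sphere_iff_norm, sub_zero] at hu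
          rw [dist_eq_norm]
          have : x - (x + u) = -u := by abel
          rw [this, norm_neg]
          exact hu
        · intro i j hij
          exact absurd hij (by
            have : i = j := @Subsingleton.elim (Fin 1) _ _ _
            rw [this]
            exact lt_irrefl _)
    rw [heq]
    exact himg

end Pool.Agent.LCK.H25
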